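import Pool.Agent.N522.ES.Main

/-!
# Small points on cyclic covers of curves of genus one
-/

open Pool.Agent.N522.ES

/-- There is an explicit effective constant `c(K, S, g)` such that every curve `X` over `K` of genus
`g` with good reduction outside `S` that has a finite étale morphism over `K` to a curve of genus
`≥ 2` which is a geometrically cyclic cover of prime degree of a curve of genus at most one has a
point `x ∈ X(K̄)` with `h(x) ≤ c(K, S, g)`; in particular every geometrically cyclic cover of prime
degree of a curve of genus at most one, of genus `≥ 2`. -/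
theorem Pool.Agent.Results.MP_fe3691_nt.CyclicCoversGenusOne.result
    (T : Theory) (F : Elliptic T) (b0 : ∀ K : T.Fld, T.Pl K → ℕ → ℕ) (A : ℝ)
    (hF : EllipticFacts T F) (hC : CoverFacts T b0) (hA : Javanpykar T A) (hm : SmallMono T)
    (K : T.Fld) (S : T.Pl K) (g : ℕ) :
    (∀ X : T.Curve K, T.genus X = g → T.Good X S → InClass T X →
      T.Small X (A * g * (bound T F b0 K S g : ℝ) ^ 5)) ∧
    (∀ X : T.Curve K, T.genus X = g → 2 ≤ g → T.Good X S → CyclicOverLowGenus T X →
      T.Small X (A * g * (bound T F b0 K S g : ℝ) ^ 5)) := by
  have h1 : ∀ X : T.Curve K, T.genus X = g → T.Good X S → InClass T X →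
      T.Small X (A * g * (bound T F b0 K S g : ℝ) ^ 5) := by
    rintro X rfl hX hc
    exact bound_small hF hC hA hm S X hc hX
  refine ⟨h1, fun X hg h2 hX hc => h1 X hg hX (inClass_of_cyclic hC X (by omega) hc)⟩
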